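import Mathlib

/-!
# MP_8f6c4c_co: every rational number above `1` is the betweenness of a betweenness-uniform graph
-/

set_option autoImplicit false

namespace Pool.Agent.Results.MP_8f6c4c_co.AllRationals

open SimpleGraph Finset

/-- `σ_{st}`: the number of shortest `s`-`t` paths (a walk of length `dist s t` is a path). -/
noncomputable def sigma {V : Type*} (G : SimpleGraph V) (s t : V) : ℕ :=
  Nat.card {p : G.Walk s t // p.length = G.dist s t}

/-- `σ_{st}(v)`: the number of shortest `s`-`t` paths that pass through `v`. -/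
noncomputable def sigmaThrough {V : Type*} (G : SimpleGraph V) (s t v : V) : ℕ :=
  Nat.card {p : G.Walk s t // p.length = G.dist s t ∧ v ∈ p.support}

open Classical in
/-- The betweenness `B(v) = ∑_{{s,t} ⊆ V ∖ {v}} σ_{st}(v) / σ_{st}`, the sum over unordered pairs
written as one half of the sum over ordered pairs. -/
noncomputable def betweenness {V : Type*} [Fintype V] (G : SimpleGraph V) (v : V) : ℚ :=
  (1 / 2) * ∑ s, ∑ t, if s ≠ t ∧ s ≠ v ∧ t ≠ v then
    (sigmaThrough G s t v : ℚ) / (sigma G s t : ℚ) else 0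

/-- `α` is the betweenness of some betweenness-uniform (finite, simple, connected) graph. -/
def IsBUGValue (α : ℝ) : Prop :=
  ∃ (V : Type) (_ : Fintype V) (G : SimpleGraph V), G.Connected ∧
    ∀ v : V, (betweenness G v : ℝ) = α

/-- The set `𝒜` of the problem. -/
def A : Set ℝ := {α | 1 < α ∧ IsBUGValue α}

section general

variable {V : Type*} {G : SimpleGraph V}

lemma sigmaThrough_adj {s t v : V} (h : G.Adj s t) (hs : s ≠ v) (ht : t ≠ v) :
    sigmaThrough G s t v = 0 := by
  unfold sigmaThrough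
  have h1 : G.dist s t = 1 := SimpleGraph.dist_eq_one_iff_adj.2 h
  rw [h1]
  have : IsEmpty {p : G.Walk s t // p.length = 1 ∧ v ∈ p.support} := by
    refine ⟨?_⟩
    rintro ⟨p, hp, hv⟩
    match p, hp with
    | .cons h' .nil, _ =>
      simp only [Walk.support_cons, Walk.support_nil, List.mem_cons, List.not_mem_nil,
        or_false] at hv
      rcases hv with rfl | rfl
      · exact hs rfl
      · exact ht rfl
  exact Nat.card_of_isEmpty

lemma walk_two {s t : V} (p : G.Walk s t) (h : p.length = 2) :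
    ∃ (w : V) (h1 : G.Adj s w) (h2 : G.Adj w t), p = Walk.cons h1 (Walk.cons h2 Walk.nil) := by
  match p, h with
  | .cons h1 (.cons h2 .nil), _ => exact ⟨_, h1, h2, rfl⟩

lemma sigmaThrough_two {s t v : V} (h : G.dist s t = 2) (hs : s ≠ v) (ht : t ≠ v)
    (h1 : G.Adj s v) (h2 : G.Adj v t) : sigmaThrough G s t v = 1 := by
  unfold sigmaThrough
  rw [h]
  have : Unique {p : G.Walk s t // p.length = 2 ∧ v ∈ p.support} := by
    refine ⟨⟨⟨Walk.cons h1 (Walk.cons h2 Walk.nil), by simp, by simp⟩⟩, ?_⟩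
    rintro ⟨p, hp, hv⟩
    obtain ⟨w, h3, h4, rfl⟩ := walk_two p hp
    simp only [Walk.support_cons, Walk.support_nil, List.mem_cons, List.not_mem_nil,
        or_false] at hv
    rcases hv with rfl | rfl | rfl
    · exact absurd rfl hs
    · rfl
    · exact absurd rfl ht
  exact Nat.card_unique

lemma sigmaThrough_two' {s t v : V} (h : G.dist s t = 2) (hs : s ≠ v) (ht : t ≠ v)
    (h1 : ¬ (G.Adj s v ∧ G.Adj v t)) : sigmaThrough G s t v = 0 := by
  unfold sigmaThrough
  rw [h]
  have : IsEmpty {p : G.Walk s t // p.length = 2 ∧ v ∈ p.support} := by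
    refine ⟨?_⟩
    rintro ⟨p, hp, hv⟩
    obtain ⟨w, h3, h4, rfl⟩ := walk_two p hp
    simp only [Walk.support_cons, Walk.support_nil, List.mem_cons, List.not_mem_nil,
        or_false] at hv
    rcases hv with rfl | rfl | rfl
    · exact absurd rfl hs
    · exact h1 ⟨h3, h4⟩
    · exact absurd rfl ht
  exact Nat.card_of_isEmpty

lemma sigma_two {s t : V} (h : G.dist s t = 2) :
    sigma G s t = Nat.card {w : V // G.Adj s w ∧ G.Adj w t} := by
  unfold sigma
  rw [h]
  refine Nat.card_congr (Equiv.symm (Equiv.ofBijective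
    (fun w : {w : V // G.Adj s w ∧ G.Adj w t} =>
      (⟨Walk.cons w.2.1 (Walk.cons w.2.2 Walk.nil), by simp⟩ : {p : G.Walk s t // p.length = 2}))
    ⟨?_, ?_⟩))
  · intro w w' hww
    have h1 := congrArg (fun p => p.1.getVert 1) hww
    simpa [Walk.getVert_cons_succ] using Subtype.ext h1
  · rintro ⟨p, hp⟩
    obtain ⟨w, h3, h4, rfl⟩ := walk_two p hp
    exact ⟨⟨w, h3, h4⟩, rfl⟩

end general

section formula

variable {V : Type*} [Fintype V] (F : SimpleGraph V)

open Classical in
/-- Betweenness in the complement of a triangle-free graph. -/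
lemma betweenness_compl (hF : ∀ x y z, F.Adj x y → F.Adj y z → ¬ F.Adj x z) (w : V → ℚ)
    (hpos : ∀ s t, F.Adj s t → F.degree s + F.degree t < Fintype.card V)
    (hw : ∀ s t, F.Adj s t →
      w s = ((Fintype.card V : ℚ) - (F.degree s + F.degree t : ℕ))⁻¹) (v : V) :
    betweenness Fᶜ v = (1 / 2) * ∑ s, F.degree s * w s -
      ∑ s, if F.Adj v s then F.degree s * w s else 0 := by
  have hwsymm : ∀ s t, F.Adj s t → w s = w t := by
    intro s t h
    rw [hw s t h, hw t s h.symm, add_comm]
  have hcard : ∀ s t, F.Adj s t → Nat.card {x : V // Fᶜ.Adj s x ∧ Fᶜ.Adj x t} =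
      Fintype.card V - (F.degree s + F.degree t) := by
    intro s t h
    have e1 : ∀ x, (Fᶜ.Adj s x ∧ Fᶜ.Adj x t) ↔ x ∈ ((F.neighborFinset s ∪ F.neighborFinset t)ᶜ : Finset V) := by
      intro x
      simp only [SimpleGraph.compl_adj, Finset.mem_compl, Finset.mem_union,
        SimpleGraph.mem_neighborFinset, not_or]
      constructor
      · rintro ⟨⟨-, h1⟩, -, h2⟩
        exact ⟨h1, fun h => h2 h.symm⟩
      · rintro ⟨h1, h2⟩
        refine ⟨⟨?_, h1⟩, ?_, fun h => h2 h.symm⟩
        · rintro rfl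
          exact h2 h.symm
        · rintro rfl
          exact h1 h
    rw [Nat.card_congr (Equiv.subtypeEquivRight e1), Nat.card_eq_fintype_card, Fintype.card_coe,
      Finset.card_compl, Finset.card_union_of_disjoint, SimpleGraph.card_neighborFinset_eq_degree,
      SimpleGraph.card_neighborFinset_eq_degree]
    rw [Finset.disjoint_left]
    intro x hx hx'
    rw [SimpleGraph.mem_neighborFinset] at hx hx'
    exact hF s x t hx hx'.symm h
  have hdist : ∀ s t, F.Adj s t → Fᶜ.dist s t = 2 := by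
    intro s t h
    have h1 : 0 < Nat.card {x : V // Fᶜ.Adj s x ∧ Fᶜ.Adj x t} := by
      rw [hcard s t h]
      have := hpos s t h
      omega
    have h2 := (Nat.card_pos_iff.1 h1).1
    obtain ⟨x, hx1, hx2⟩ := h2
    have h3 : Fᶜ.dist s t ≤ 2 := by
      simpa using SimpleGraph.dist_le (Walk.cons hx1 (Walk.cons hx2 Walk.nil))
    have h4 : Fᶜ.dist s t ≠ 1 := by
      rw [ne_eq, SimpleGraph.dist_eq_one_iff_adj, SimpleGraph.compl_adj]
      exact fun hh => hh.2 h
    have h5 : Fᶜ.dist s t ≠ 0 := by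
      have hr : Fᶜ.Reachable s t := (Walk.cons hx1 (Walk.cons hx2 Walk.nil)).reachable
      rw [ne_eq, hr.dist_eq_zero_iff]
      exact h.ne
    omega
  -- the summand
  have hterm : ∀ s t, (if s ≠ t ∧ s ≠ v ∧ t ≠ v then
      (sigmaThrough Fᶜ s t v : ℚ) / (sigma Fᶜ s t : ℚ) else 0) =
      (if F.Adj s t then w s else 0) - ((if F.Adj v s ∧ F.Adj s t then w s else 0) +
        (if F.Adj v t ∧ F.Adj t s then w t else 0)) := by
    intro s t
    by_cases hst : F.Adj s t
    · have hne := hst.ne
      by_cases hsv : F.Adj v s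
      · have h1 : ¬ F.Adj v t := fun h => hF v s t hsv hst h
        rw [if_pos hst, if_pos (show F.Adj v s ∧ F.Adj s t from ⟨hsv, hst⟩),
          if_neg (show ¬ (F.Adj v t ∧ F.Adj t s) from fun h => h1 h.1)]
        by_cases htv : t = v
        · rw [if_neg (show ¬ (s ≠ t ∧ s ≠ v ∧ t ≠ v) from fun h => h.2.2 htv)]; ring
        · rw [if_pos (show s ≠ t ∧ s ≠ v ∧ t ≠ v from ⟨hne, hsv.ne', htv⟩),
            sigmaThrough_two' (hdist s t hst) hsv.ne' htv
            (fun h => ((SimpleGraph.compl_adj _ _ _).1 h.1).2 hsv.symm)]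
          simp
      · by_cases htv : F.Adj v t
        · rw [if_pos hst, if_neg (show ¬ (F.Adj v s ∧ F.Adj s t) from fun h => hsv h.1),
            if_pos (show F.Adj v t ∧ F.Adj t s from ⟨htv, hst.symm⟩),
            ← hwsymm s t hst]
          by_cases hsv' : s = v
          · rw [if_neg (show ¬ (s ≠ t ∧ s ≠ v ∧ t ≠ v) from fun h => h.2.1 hsv')]; ring
          · rw [if_pos (show s ≠ t ∧ s ≠ v ∧ t ≠ v from ⟨hne, hsv', htv.ne'⟩),
              sigmaThrough_two' (hdist s t hst) hsv' htv.ne'
              (fun h => ((SimpleGraph.compl_adj _ _ _).1 h.2).2 htv)]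
            simp
        · have hsv' : s ≠ v := by rintro rfl; exact htv hst
          have htv' : t ≠ v := by rintro rfl; exact hsv hst.symm
          rw [if_pos (show s ≠ t ∧ s ≠ v ∧ t ≠ v from ⟨hne, hsv', htv'⟩), if_pos hst,
            if_neg (show ¬ (F.Adj v s ∧ F.Adj s t) from fun h => hsv h.1),
            if_neg (show ¬ (F.Adj v t ∧ F.Adj t s) from fun h => htv h.1),
            sigmaThrough_two (hdist s t hst) hsv' htv'
              ((SimpleGraph.compl_adj _ _ _).2 ⟨hsv', fun h => hsv h.symm⟩)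
              ((SimpleGraph.compl_adj _ _ _).2 ⟨htv'.symm, htv⟩),
            sigma_two (hdist s t hst), hcard s t hst, hw s t hst,
            Nat.cast_sub (hpos s t hst).le]
          simp
    · rw [if_neg hst, if_neg (show ¬ (F.Adj v s ∧ F.Adj s t) from fun h => hst h.2),
        if_neg (show ¬ (F.Adj v t ∧ F.Adj t s) from fun h => hst h.2.symm)]
      by_cases hc : s ≠ t ∧ s ≠ v ∧ t ≠ v
      · rw [if_pos hc, sigmaThrough_adj ((SimpleGraph.compl_adj _ _ _).2 ⟨hc.1, hst⟩) hc.2.1
          hc.2.2]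
        simp
      · rw [if_neg hc]; ring
  have hdeg : ∀ s, ∑ t, (if F.Adj s t then w s else 0) = F.degree s * w s := by
    intro s
    rw [← Finset.sum_filter, Finset.sum_const, nsmul_eq_mul, ← SimpleGraph.neighborFinset_eq_filter,
      SimpleGraph.card_neighborFinset_eq_degree]
  have hdeg2 : ∀ s, ∑ t, (if F.Adj v s ∧ F.Adj s t then w s else 0) =
      if F.Adj v s then F.degree s * w s else 0 := by
    intro s
    by_cases h : F.Adj v s
    · simp only [h, true_and, if_true]
      exact hdeg s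
    · simp [h]
  unfold betweenness
  simp_rw [hterm, Finset.sum_sub_distrib, Finset.sum_add_distrib, hdeg, hdeg2]
  rw [Finset.sum_comm (f := fun s t => if F.Adj v t ∧ F.Adj t s then w t else 0)]
  simp_rw [hdeg2]
  ring

open Classical in
lemma connected_compl [Nonempty V]
    (hpos : ∀ s t, F.Adj s t → F.degree s + F.degree t < Fintype.card V) :
    Fᶜ.Connected := by
  refine ⟨fun s t => ?_⟩
  by_cases hst : F.Adj s t
  · have h1 : (F.neighborFinset s ∪ F.neighborFinset t).card < Fintype.card V := by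
      refine (Finset.card_union_le _ _).trans_lt ?_
      rw [SimpleGraph.card_neighborFinset_eq_degree, SimpleGraph.card_neighborFinset_eq_degree]
      exact hpos s t hst
    obtain ⟨x, hx⟩ : ∃ x, x ∉ F.neighborFinset s ∪ F.neighborFinset t := by
      by_contra hcon
      push Not at hcon
      have : F.neighborFinset s ∪ F.neighborFinset t = Finset.univ :=
        Finset.eq_univ_iff_forall.2 hcon
      rw [this, Finset.card_univ] at h1
      omega
    rw [Finset.mem_union, SimpleGraph.mem_neighborFinset, SimpleGraph.mem_neighborFinset,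
      not_or] at hx
    have h2 : Fᶜ.Adj s x := (SimpleGraph.compl_adj _ _ _).2
      ⟨by rintro rfl; exact hx.2 hst.symm, hx.1⟩
    have h3 : Fᶜ.Adj x t := (SimpleGraph.compl_adj _ _ _).2
      ⟨by rintro rfl; exact hx.1 hst, fun h => hx.2 h.symm⟩
    exact h2.reachable.trans h3.reachable
  · by_cases h : s = t
    · exact h ▸ Reachable.refl s
    · exact ((SimpleGraph.compl_adj _ _ _).2 ⟨h, hst⟩ : Fᶜ.Adj s t).reachable

end formula

section construction

/-- vertex set: `r` stars `K_{1,l}` and a bipartite graph with `m + m` vertices -/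
abbrev VV (r l m : ℕ) := (Fin r × Option (Fin l)) ⊕ (Fin m × Bool)

/-- `r` disjoint stars `K_{1,l}` together with an `a`-regular bipartite circulant graph. -/
def FF (r l m a : ℕ) : SimpleGraph (VV r l m) where
  Adj u v := match u, v with
    | .inl (i, none), .inl (j, some _) => i = j
    | .inl (i, some _), .inl (j, none) => i = j
    | .inr (x, false), .inr (y, true) => (y - x).val < a
    | .inr (x, true), .inr (y, false) => (x - y).val < a
    | _, _ => False
  symm := ⟨by
    rintro (⟨i, _ | k⟩ | ⟨x, _ | _⟩) (⟨j, _ | k'⟩ | ⟨y, _ | _⟩) h <;>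
      simp only at h ⊢ <;> first | exact h.symm | exact h⟩
  loopless := ⟨by
    rintro (⟨i, _ | k⟩ | ⟨x, _ | _⟩) h <;> exact h⟩

/-- the two sides -/
def col {r l m : ℕ} : VV r l m → Bool
  | .inl (_, o) => o.isSome
  | .inr (_, b) => b

lemma col_ne {r l m a : ℕ} {u v : VV r l m} (h : (FF r l m a).Adj u v) : col u = !col v := by
  rcases u with (⟨i, _ | k⟩ | ⟨x, _ | _⟩) <;> rcases v with (⟨j, _ | k'⟩ | ⟨y, _ | _⟩) <;>
    first | rfl | exact absurd h (by simp [FF])

lemma FF_trianglefree {r l m a : ℕ} (x y z : VV r l m) (h1 : (FF r l m a).Adj x y)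
    (h2 : (FF r l m a).Adj y z) : ¬ (FF r l m a).Adj x z := by
  intro h3
  have e1 := col_ne h1
  have e2 := col_ne h2
  have e3 := col_ne h3
  rw [e2] at e1
  rw [e3] at e1
  revert e1
  cases col z <;> simp

lemma count1 {m a : ℕ} (ha : a ≤ m) :
    (∑ z : Fin m, if z.val < a then (1 : ℕ) else 0) = a := by
  rw [Fin.sum_univ_eq_sum_range (fun i => if i < a then 1 else 0) m, ← Finset.sum_filter]
  simp only [Finset.sum_const, smul_eq_mul, mul_one]
  have : (Finset.range m).filter (fun i => i < a) = Finset.range a := by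
    ext i
    simp only [Finset.mem_filter, Finset.mem_range]
    omega
  rw [this, Finset.card_range]

lemma count2 {m a : ℕ} (ha : a ≤ m) (x : Fin m) {c : ℚ} :
    (∑ y : Fin m, if (y - x).val < a then c else 0) = a * c := by
  have : NeZero m := ⟨by have := x.isLt; omega⟩
  have h0 : (∑ y : Fin m, if (y - x).val < a then c else 0) =
      ∑ z : Fin m, if z.val < a then c else 0 :=
    Equiv.sum_comp (Equiv.subRight x) (fun z : Fin m => if z.val < a then c else 0)
  rw [h0]
  have h := count1 ha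
  have h2 : (∑ z : Fin m, if z.val < a then (1 : ℚ) else 0) = a := by
    exact_mod_cast h
  rw [← h2, Finset.sum_mul]
  refine Finset.sum_congr rfl fun z _ => ?_
  split_ifs <;> simp

lemma count3 {m a : ℕ} (ha : a ≤ m) (x : Fin m) {c : ℚ} :
    (∑ y : Fin m, if (x - y).val < a then c else 0) = a * c := by
  have : NeZero m := ⟨by have := x.isLt; omega⟩
  have h0 : (∑ y : Fin m, if (x - y).val < a then c else 0) =
      ∑ z : Fin m, if z.val < a then c else 0 :=
    Equiv.sum_comp (Equiv.subLeft x) (fun z : Fin m => if z.val < a then c else 0)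
  rw [h0]
  have h := count1 ha
  have h2 : (∑ z : Fin m, if z.val < a then (1 : ℚ) else 0) = a := by
    exact_mod_cast h
  rw [← h2, Finset.sum_mul]
  refine Finset.sum_congr rfl fun z _ => ?_
  split_ifs <;> simp

/-- neighbour sums -/
lemma nbsum {r l m a : ℕ} (ha : a ≤ m) [DecidableRel (FF r l m a).Adj] (g : VV r l m → ℚ)
    (c0 c1 c2 : ℚ) (h0 : ∀ i, g (.inl (i, none)) = c0) (h1 : ∀ i k, g (.inl (i, some k)) = c1)
    (h2 : ∀ x b, g (.inr (x, b)) = c2) (v : VV r l m) :
    (∑ s, if (FF r l m a).Adj v s then g s else 0) =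
      match v with
      | .inl (_, none) => l * c1
      | .inl (_, some _) => c0
      | .inr _ => a * c2 := by
  rcases v with (⟨i, _ | k⟩ | ⟨x, _ | _⟩)
  · simp [FF, Fintype.sum_sum_type, Fintype.sum_prod_type, Fintype.sum_option, h1]
  · simp [FF, Fintype.sum_sum_type, Fintype.sum_prod_type, Fintype.sum_option, h0]
  · simp [FF, Fintype.sum_sum_type, Fintype.sum_prod_type, h2]
    refine (Finset.sum_congr rfl fun y _ => ?_).trans (count2 ha x (c := c2))
    by_cases h : (y - x).val < a
    · exact (if_pos h).trans (if_pos h).symm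
    · exact (if_neg h).trans (if_neg h).symm
  · simp [FF, Fintype.sum_sum_type, Fintype.sum_prod_type, h2]
    refine (Finset.sum_congr rfl fun y _ => ?_).trans (count3 ha x (c := c2))
    by_cases h : (x - y).val < a
    · exact (if_pos h).trans (if_pos h).symm
    · exact (if_neg h).trans (if_neg h).symm

open Classical in
lemma FF_degree {r l m a : ℕ} (ha : a ≤ m) (v : VV r l m) :
    ((FF r l m a).degree v : ℚ) = match v with
      | .inl (_, none) => (l : ℚ)
      | .inl (_, some _) => 1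
      | .inr _ => (a : ℚ) := by
  have h := nbsum (l := l) (r := r) ha (fun _ => (1 : ℚ)) 1 1 1 (fun _ => rfl) (fun _ _ => rfl)
    (fun _ _ => rfl) v
  rw [← Finset.sum_filter, Finset.sum_const, nsmul_eq_mul, mul_one,
    ← SimpleGraph.neighborFinset_eq_filter, SimpleGraph.card_neighborFinset_eq_degree] at h
  rw [h]
  rcases v with (⟨i, _ | k⟩ | ⟨x, b⟩) <;> simp

open Classical in
/-- the parameters give a betweenness-uniform graph of betweenness `(S + d) / S` -/
lemma main_construction (S d k r l m : ℕ) (hS : 1 ≤ S) (hd : 1 ≤ d) (hk : 4 ≤ k)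
    (_hr1 : 1 ≤ r) (hr : r + 2 * (S + d) = S ^ 2 * k) (hl : l + k = S ^ 2 * k ^ 2)
    (hm : m = l * d + (S + d)) (v : VV r l m) :
    betweenness (FF r l m (S * k))ᶜ v = ((S + d : ℕ) : ℚ) / S ∧
      (FF r l m (S * k))ᶜ.Connected := by
  have hkS : 4 ≤ S * k := le_trans hk (Nat.le_mul_of_pos_left k hS)
  have hkS2 : k ≤ S * k := Nat.le_mul_of_pos_left k hS
  have hsq : S ^ 2 * k ^ 2 = (S * k) * (S * k) := by ring
  have hsq4 : 4 * (S * k) ≤ (S * k) * (S * k) := Nat.mul_le_mul_right _ hkS
  have hl2 : 3 * (S * k) ≤ l := by omega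
  have ha : S * k ≤ m := by
    have : l * 1 ≤ l * d := Nat.mul_le_mul_left l hd
    omega
  have hcard : (Fintype.card (VV r l m)) = r * (l + 1) + m * 2 := by
    simp [VV]
  have hcardQ : (Fintype.card (VV r l m) : ℚ) = r * (l + 1) + m * 2 := by
    rw [hcard]; push_cast; ring
  set D : ℚ := (l : ℚ) + 1 - 2 * (S * k) with hD
  have hDpos : 0 < D := by
    rw [hD]
    have : ((3 * (S * k) : ℕ) : ℚ) ≤ (l : ℚ) := by exact_mod_cast hl2
    push_cast at this
    have h4 : (4 : ℚ) ≤ S * k := by exact_mod_cast hkS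
    linarith
  have hSq : (0 : ℚ) < S := by exact_mod_cast hS
  have hkq : (0 : ℚ) < k := by
    have : 0 < k := by omega
    exact_mod_cast this
  have hrQ : (r : ℚ) = S ^ 2 * k - 2 * (S + d) := by
    have : ((r + 2 * (S + d) : ℕ) : ℚ) = ((S ^ 2 * k : ℕ) : ℚ) := by rw [hr]
    push_cast at this
    linarith
  have hlQ : (l : ℚ) = S ^ 2 * k ^ 2 - k := by
    have : ((l + k : ℕ) : ℚ) = ((S ^ 2 * k ^ 2 : ℕ) : ℚ) := by rw [hl]
    push_cast at this
    linarith
  have hmQ : (m : ℚ) = l * d + (S + d) := by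
    rw [hm]; push_cast; ring
  have hS2k : (0 : ℚ) < S ^ 2 * k - 1 := by
    have h1 : 4 ≤ S * (S * k) := le_trans hkS (Nat.le_mul_of_pos_left _ hS)
    have h2 : (4 : ℚ) ≤ S * (S * k) := by exact_mod_cast h1
    nlinarith
  have hN2 : (Fintype.card (VV r l m) : ℚ) - (2 * (S * k)) = S ^ 2 * k * D := by
    rw [hcardQ, hrQ, hmQ, hD, hlQ]; ring
  have hN1 : (Fintype.card (VV r l m) : ℚ) - (l + 1) = (S ^ 2 * k - 1) * D := by
    rw [hcardQ, hrQ, hmQ, hD, hlQ]; ring
  have hlfac : (l : ℚ) = k * (S ^ 2 * k - 1) := by rw [hlQ]; ring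
  let w : VV r l m → ℚ := fun v => match v with
    | .inl _ => ((S ^ 2 * k - 1) * D)⁻¹
    | .inr _ => (S ^ 2 * k * D)⁻¹
  have hdegsum : ∀ s t, (FF r l m (S * k)).Adj s t →
      (((FF r l m (S * k)).degree s + (FF r l m (S * k)).degree t : ℕ) : ℚ) =
        match s with
        | .inl _ => (l : ℚ) + 1
        | .inr _ => 2 * (S * k) := by
    intro s t hst
    rw [Nat.cast_add, FF_degree ha, FF_degree ha]
    rcases s with (⟨i, _ | k'⟩ | ⟨x, _ | _⟩) <;> rcases t with (⟨j, _ | k''⟩ | ⟨y, _ | _⟩) <;>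
      first
      | (exfalso; simp [FF] at hst; done)
      | (push_cast; ring)
  have hw : ∀ s t, (FF r l m (S * k)).Adj s t →
      w s = ((Fintype.card (VV r l m) : ℚ) -
        ((FF r l m (S * k)).degree s + (FF r l m (S * k)).degree t : ℕ))⁻¹ := by
    intro s t hst
    rw [hdegsum s t hst]
    rcases s with s | s
    · simp only [w]
      rw [hN1]
    · simp only [w]
      rw [hN2]
  have hpos : ∀ s t, (FF r l m (S * k)).Adj s t →
      (FF r l m (S * k)).degree s + (FF r l m (S * k)).degree t < Fintype.card (VV r l m) := by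
    intro s t hst
    have h1 := hdegsum s t hst
    have h2 : (((FF r l m (S * k)).degree s + (FF r l m (S * k)).degree t : ℕ) : ℚ) <
        (Fintype.card (VV r l m) : ℚ) := by
      rw [h1]
      rcases s with s | s
      · have : 0 < (S ^ 2 * k - 1) * D := mul_pos hS2k hDpos
        simp only
        linarith
      · have : 0 < S ^ 2 * k * D := by positivity
        simp only
        linarith
    exact_mod_cast h2
  have : Nonempty (VV r l m) := ⟨v⟩
  refine ⟨?_, connected_compl _ hpos⟩
  rw [betweenness_compl (FF r l m (S * k)) FF_trianglefree w hpos hw v]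
  have hg0 : ∀ i, ((FF r l m (S * k)).degree (.inl (i, none)) : ℚ) * w (.inl (i, none)) =
      l * ((S ^ 2 * k - 1) * D)⁻¹ := fun i => by rw [FF_degree ha]
  have hg1 : ∀ i k', ((FF r l m (S * k)).degree (.inl (i, some k')) : ℚ) *
      w (.inl (i, some k')) = 1 * ((S ^ 2 * k - 1) * D)⁻¹ := fun i k' => by rw [FF_degree ha]
  have hg2 : ∀ x b, ((FF r l m (S * k)).degree (.inr (x, b)) : ℚ) * w (.inr (x, b)) =
      (S * k : ℕ) * (S ^ 2 * k * D)⁻¹ := fun x b => by rw [FF_degree ha]
  have hsum : ∑ s, ((FF r l m (S * k)).degree s : ℚ) * w s =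
      2 * (r * l * ((S ^ 2 * k - 1) * D)⁻¹) + 2 * (m * (S * k) * (S ^ 2 * k * D)⁻¹) := by
    rw [Fintype.sum_sum_type, Fintype.sum_prod_type, Fintype.sum_prod_type]
    simp_rw [Fintype.sum_option, hg0, hg1, hg2]
    simp only [Finset.sum_const, Finset.card_univ, Fintype.card_fin, Fintype.card_bool,
      nsmul_eq_mul]
    push_cast
    ring
  have hnb := nbsum ha (fun s => ((FF r l m (S * k)).degree s : ℚ) * w s) _ _ _ hg0 hg1 hg2 v
  rw [hsum]
  have e1 : (l : ℚ) * ((S ^ 2 * k - 1) * D)⁻¹ = k / D := by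
    rw [hlfac, mul_inv, mul_assoc (k : ℚ), ← mul_assoc (S ^ 2 * (k : ℚ) - 1),
      mul_inv_cancel₀ hS2k.ne', one_mul, div_eq_mul_inv]
  have e2 : (S * k : ℚ) * (S ^ 2 * k * D)⁻¹ = 1 / (S * D) := by
    field_simp
  have goal : (r : ℚ) * (k / D) + m * (1 / (S * D)) - k / D = ((S + d : ℕ) : ℚ) / S := by
    rw [hrQ, hmQ]
    push_cast
    rw [eq_div_iff hSq.ne']
    have : ((S ^ 2 * k - 2 * (S + d)) * (k / D) + (l * d + (S + d)) * (1 / (S * D)) - k / D) * S =
      ((S ^ 2 * k - 2 * (S + d) - 1) * k * S + (l * d + (S + d))) / D := by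
      field_simp
      ring
    rw [this, div_eq_iff hDpos.ne', hD, hlQ]
    ring
  rcases v with (⟨i, _ | k'⟩ | ⟨x, b⟩)
  · simp only at hnb
    rw [hnb]
    linear_combination goal + (r - 1 : ℚ) * e1 + m * e2
  · simp only at hnb
    rw [hnb]
    linear_combination goal + (r - 1 : ℚ) * e1 + m * e2
  · simp only at hnb
    rw [hnb]
    rw [Nat.cast_mul]
    have e3 : (S * k : ℚ) * (1 / (S * D)) = k / D := by
      field_simp
    linear_combination goal + (r : ℚ) * e1 + (m - (S * k : ℚ)) * e2 - e3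

end construction

/-- **Main result.** Every rational number `> 1` is the betweenness of a betweenness-uniform graph
and nothing else is: `𝒜 = ℚ ∩ (1, ∞)`. -/
theorem result : A = {α : ℝ | 1 < α ∧ ∃ q : ℚ, (q : ℝ) = α} := by
  ext α
  constructor
  · rintro ⟨h1, V, hV, G, hG, hB⟩
    obtain ⟨v⟩ := hG.nonempty
    exact ⟨h1, _, hB v⟩
  · rintro ⟨h1, q, rfl⟩
    refine ⟨h1, ?_⟩
    have hq : 1 < q := by exact_mod_cast h1
    set S := q.den with hS
    have hSpos : 1 ≤ S := q.den_pos
    obtain ⟨d, hd1, hd⟩ : ∃ d : ℕ, 1 ≤ d ∧ q.num = (S + d : ℕ) := by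
      have h2 : (q.den : ℤ) < q.num := by
        have h3 : q = q.num / q.den := (Rat.num_div_den q).symm
        rw [h3, lt_div_iff₀ (by exact_mod_cast q.den_pos), one_mul] at hq
        exact_mod_cast hq
      refine ⟨(q.num - q.den).toNat, by omega, ?_⟩
      push_cast
      omega
    have hqe : q = ((S + d : ℕ) : ℚ) / S := by
      have h3 : q = q.num / q.den := (Rat.num_div_den q).symm
      have h4 : (q.num : ℚ) = ((S + d : ℕ) : ℚ) := by rw [hd]; push_cast; rfl
      rw [← h4]
      exact h3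
    have h2S : 2 * (S + d) + 4 ≤ S ^ 2 * (2 * (S + d) + 4) :=
      Nat.le_mul_of_pos_left _ (by positivity)
    set k := 2 * (S + d) + 4 with hk
    have hSk : k ≤ S ^ 2 * k ^ 2 := by
      have : k * 1 ≤ k * (S ^ 2 * k) := Nat.mul_le_mul_left k (by omega)
      calc k = k * 1 := (mul_one k).symm
        _ ≤ k * (S ^ 2 * k) := this
        _ = S ^ 2 * k ^ 2 := by ring
    obtain ⟨r, hr⟩ : ∃ r, r + 2 * (S + d) = S ^ 2 * k := ⟨S ^ 2 * k - 2 * (S + d), by omega⟩
    obtain ⟨l, hl⟩ : ∃ l, l + k = S ^ 2 * k ^ 2 := ⟨S ^ 2 * k ^ 2 - k, by omega⟩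
    have hr1 : 1 ≤ r := by omega
    have main := main_construction S d k r l (l * d + (S + d)) hSpos hd1 (by omega) hr1 hr hl rfl
    have v0 : VV r l (l * d + (S + d)) := Sum.inl (⟨0, by omega⟩, none)
    refine ⟨VV r l (l * d + (S + d)), inferInstance, (FF r l (l * d + (S + d)) (S * k))ᶜ,
      (main v0).2, fun v => ?_⟩
    rw [(main v).1, ← hqe]

end Pool.Agent.Results.MP_8f6c4c_co.AllRationals
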